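import Pool.Agent.H93.Q1c
import Mathlib.Analysis.SpecificLimits.Basic
import Mathlib.Computability.Halting

namespace Pool.Agent.Results.MP_738f0f_lc.DensityZeroEq

open Filter Classical Pool.Agent.H93

/-- The characteristic function of a set of natural numbers. -/
noncomputable def chi (A : Set ℕ) (n : ℕ) : ℕ := if n ∈ A then 1 else 0

/-- The oracle `A` computes the total function `f`: `f` is Turing reducible to `A`. -/
def Computes (A : Set ℕ) (f : ℕ → ℕ) : Prop :=
  TuringReducible (fun n => Part.some (f n)) (fun n => Part.some (chi A n))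

/-- The lower density `liminf |Z ∩ [0,n)| / n`. -/
noncomputable def lowerDensity (Z : Set ℕ) : ℝ :=
  liminf (fun n : ℕ => ((Z ∩ Set.Iio n).ncard : ℝ) / n) atTop

/-- The class of oracles computing a set `Y` such that for every computable set `S` the set of
positions where `S` and `Y` agree has lower density `> p`. -/
def BSim (p : ℝ) : Set (Set ℕ) :=
  {A | ∃ Y : Set ℕ, Computes A (chi Y) ∧
    ∀ S : Set ℕ, ComputablePred (fun n => n ∈ S) → p < lowerDensity {n | n ∈ S ↔ n ∈ Y}}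

/-- The class of oracles computing a function `y` below `h` that is eventually different from
every computable function. -/
def BNe (h : ℕ → ℕ) : Set (Set ℕ) :=
  {A | ∃ y : ℕ → ℕ, Computes A y ∧ (∀ n, y n < h n) ∧
    ∀ x : ℕ → ℕ, Computable x → ∀ᶠ n in atTop, x n ≠ y n}

theorem chi_le (A : Set ℕ) (n : ℕ) : chi A n ≤ 1 := by unfold chi; split_ifs <;> omega

theorem computes_iff (A : Set ℕ) (f : ℕ → ℕ) :
    Computes A f ↔ TR {fun n => Part.some (chi A n)} f := by
  unfold Computes TuringReducible TR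
  exact RecursiveIn.iff_nat

theorem ratio_nonneg (Z : Set ℕ) (n : ℕ) : (0 : ℝ) ≤ ((Z ∩ Set.Iio n).ncard : ℝ) / n := by
  positivity

theorem ratio_le_one (Z : Set ℕ) (n : ℕ) : ((Z ∩ Set.Iio n).ncard : ℝ) / n ≤ 1 := by
  apply div_le_one_of_le₀ _ (by positivity)
  have h : (Z ∩ Set.Iio n).ncard ≤ (Set.Iio n).ncard :=
    Set.ncard_le_ncard Set.inter_subset_right (Set.finite_Iio n)
  have h2 : (Set.Iio n).ncard = n := by
    rw [← Finset.coe_range, Set.ncard_coe_finset, Finset.card_range]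
  rw [h2] at h
  exact_mod_cast h

theorem pos_iff (Z : Set ℕ) : 0 < lowerDensity Z ↔
    ∃ c : ℝ, 0 < c ∧ ∀ᶠ n : ℕ in atTop, c ≤ ((Z ∩ Set.Iio n).ncard : ℝ) / n := by
  unfold lowerDensity
  constructor
  · intro h
    obtain ⟨c, hc0, hc⟩ := exists_between h
    refine ⟨c, hc0, ?_⟩
    have hb : IsBoundedUnder (· ≥ ·) atTop (fun n : ℕ => ((Z ∩ Set.Iio n).ncard : ℝ) / n) :=
      ⟨0, eventually_map.2 (Eventually.of_forall (fun n => ratio_nonneg Z n))⟩
    filter_upwards [eventually_lt_of_lt_liminf hc hb] with n hn using hn.le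
  · rintro ⟨c, hc0, hc⟩
    refine lt_of_lt_of_le hc0 (le_liminf_of_le ?_ hc)
    have : IsBoundedUnder (· ≤ ·) atTop (fun n : ℕ => ((Z ∩ Set.Iio n).ncard : ℝ) / n) :=
      ⟨1, eventually_map.2 (Eventually.of_forall (fun n => ratio_le_one Z n))⟩
    exact this.isCoboundedUnder_ge

theorem bne_sub_bsim : BNe (fun n => 2 ^ (2 ^ n)) ⊆ BSim 0 := by
  rintro A ⟨y, hy, hlt, hav⟩
  rw [computes_iff] at hy
  have henc : ∀ i, enc y i ≤ 1 := fun i => by unfold enc; omega
  have hchi : ∀ i, chi {i | enc y i = 1} i = enc y i := by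
    intro i
    have := henc i
    unfold chi
    simp only [Set.mem_ofPred_eq]
    split_ifs <;> omega
  refine ⟨{i | enc y i = 1}, ?_, ?_⟩
  · rw [computes_iff]
    exact hy.enc.of_eq (fun i => (hchi i).symm)
  · rintro S ⟨hdec, hS⟩
    rw [pos_iff]
    have h1 := core2 hlt hav hS
    obtain ⟨n0, hn0⟩ := eventually_atTop.1 h1
    refine ⟨1 / 128, by norm_num, ?_⟩
    filter_upwards [eventually_ge_atTop (2 ^ (n0 + 2))] with M hM
    have hM0 : 0 < M := lt_of_lt_of_le (by positivity) hM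
    -- `n` with `2^(n+2) ≤ M < 2^(n+3)`
    obtain ⟨n, hn, hnl, hnu⟩ : ∃ n, n0 ≤ n ∧ 2 ^ (n + 2) ≤ M ∧ M < 2 ^ (n + 3) := by
      have h2 : n0 + 2 ≤ Nat.log 2 M := Nat.le_log_of_pow_le (by norm_num) hM
      refine ⟨Nat.log 2 M - 2, by omega, ?_, ?_⟩
      · have : Nat.log 2 M - 2 + 2 = Nat.log 2 M := by omega
        rw [this]; exact Nat.pow_log_le_self 2 (by omega)
      · have : Nat.log 2 M - 2 + 3 = Nat.log 2 M + 1 := by omega
        rw [this]; exact Nat.lt_pow_succ_log_self (by norm_num) M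
    have h3 := hn0 n hn
    set F := (Finset.range (2 ^ (n + 1))).filter
      (fun r => (decide (2 ^ (n + 1) + r ∈ S) = true ↔ enc y (2 ^ (n + 1) + r) = 1)) with hF
    have h4 : F.card ≤ ({i | i ∈ S ↔ enc y i = 1} ∩ Set.Iio M).ncard := by
      have hinj : Set.InjOn (fun r => 2 ^ (n + 1) + r) (F : Set ℕ) := by
        intro a _ b _ h
        simpa using h
      rw [← Finset.card_image_of_injOn hinj, ← Set.ncard_coe_finset]
      apply Set.ncard_le_ncard _ ((Set.finite_Iio M).subset Set.inter_subset_right)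
      intro i hi
      simp only [Finset.coe_image, Set.mem_image, Finset.mem_coe, hF, Finset.mem_filter,
        Finset.mem_range, decide_eq_true_eq] at hi
      obtain ⟨r, ⟨hr1, hr2⟩, rfl⟩ := hi
      refine ⟨hr2, ?_⟩
      simp only [Set.mem_Iio]
      have : 2 ^ (n + 2) = 2 ^ (n + 1) * 2 := pow_succ _ _
      omega
    rw [le_div_iff₀ (by exact_mod_cast hM0)]
    have h5 : (M : ℝ) ≤ 128 * F.card := by
      have e : 2 ^ (n + 3) = 4 * 2 ^ (n + 1) := by rw [pow_add, pow_add]; ring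
      have : M ≤ 128 * F.card := by omega
      exact_mod_cast this
    have h6 : (F.card : ℝ) ≤ (({i | i ∈ S ↔ enc y i = 1} ∩ Set.Iio M).ncard : ℝ) := by
      exact_mod_cast h4
    linarith

theorem bsim_sub_bne : BSim 0 ⊆ BNe (fun n => 2 ^ (2 ^ n)) := by
  rintro A ⟨Y, hY, hS⟩
  by_contra hcon
  rw [computes_iff] at hY
  have H : ∀ z : ℕ → ℕ, TR {fun n => Part.some (chi A n)} z → (∀ n, z n < 2 ^ (2 ^ n)) →
      ∃ x : ℕ → ℕ, Computable x ∧ ∃ᶠ n in atTop, x n = z n := by
    intro z hz hzlt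
    by_contra h
    apply hcon
    refine ⟨z, (computes_iff A z).2 hz, hzlt, ?_⟩
    intro x hx
    by_contra h2
    apply h
    refine ⟨x, hx, ?_⟩
    intro h3
    apply h2
    filter_upwards [h3] with n hn using hn
  obtain ⟨s, hs, hs2⟩ := core (chi_le Y) hY H
  have hcp : ComputablePred (fun n => n ∈ {i | s i = true}) := by
    refine ⟨fun n => inferInstanceAs (Decidable (s n = true)), ?_⟩
    refine hs.of_eq (fun n => ?_)
    simp
  have h0 := hS {i | s i = true} hcp
  rw [pos_iff] at h0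
  obtain ⟨c, hc0, hc⟩ := h0
  obtain ⟨N0, hN0⟩ := eventually_atTop.1 hc
  obtain ⟨k, hk⟩ := exists_pow_lt_of_lt_one hc0 (by norm_num : (1 / 2 : ℝ) < 1)
  obtain ⟨m, hm, a, ha, hsa⟩ := hs2 (max N0 k)
  have hN : N0 ≤ 2 ^ (a + m) := by
    have h1 : a + m < 2 ^ (a + m) := Nat.lt_two_pow_self
    have h2 : N0 ≤ m := (le_max_left _ _).trans hm
    omega
  have h1 := hN0 _ hN
  have h2 : ({n | n ∈ {i | s i = true} ↔ n ∈ Y} ∩ Set.Iio (2 ^ (a + m))).ncard ≤ 2 ^ a := by
    have hsub : ({n | n ∈ {i | s i = true} ↔ n ∈ Y} ∩ Set.Iio (2 ^ (a + m))) ⊆ Set.Iio (2 ^ a) := by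
      rintro i ⟨hi1, hi2⟩
      simp only [Set.mem_Iio] at hi2 ⊢
      by_contra hi3
      push Not at hi3
      have h3 := hsa i hi3 hi2
      simp only [Set.mem_ofPred_eq] at hi1
      rw [hi1] at h3
      unfold chi at h3
      by_cases hiY : i ∈ Y
      · simp [hiY] at h3
      · simp [hiY] at h3
    have h3 := Set.ncard_le_ncard hsub (Set.finite_Iio _)
    have h4 : (Set.Iio (2 ^ a)).ncard = 2 ^ a := by
      rw [← Finset.coe_range, Set.ncard_coe_finset, Finset.card_range]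
    rwa [h4] at h3
  have h3 : c ≤ (2 ^ a : ℝ) / 2 ^ (a + m) := by
    refine h1.trans ?_
    push_cast
    apply div_le_div_of_nonneg_right _ (by positivity)
    exact_mod_cast h2
  have h4 : (2 ^ a : ℝ) / 2 ^ (a + m) = (1 / 2) ^ m := by
    rw [pow_add, one_div, inv_pow]
    field_simp
  have h5 : ((1 / 2 : ℝ)) ^ m ≤ (1 / 2) ^ k :=
    pow_le_pow_of_le_one (by norm_num) (by norm_num) ((le_max_right _ _).trans hm)
  rw [h4] at h3
  linarith

/-- **Theorem.** The classes `B(≠*, 2^(2^n))` and `B(∼_0)` coincide. -/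
theorem result : BNe (fun n => 2 ^ (2 ^ n)) = BSim 0 :=
  Set.Subset.antisymm bne_sub_bsim bsim_sub_bne

end Pool.Agent.Results.MP_738f0f_lc.DensityZeroEq
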