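import Pool.Agent.H93.TR
import Pool.Agent.H99.OF.Gen

namespace Pool.Agent.Results.MP_738f0f_lc.ProperFactorial

open Filter Classical Pool.Agent.H93 Pool.Agent.H99.OF

/-- The characteristic function of a set of natural numbers. -/
noncomputable def chi (A : Set ℕ) (n : ℕ) : ℕ := if n ∈ A then 1 else 0

/-- The oracle `A` computes the total function `f`: `f` is Turing reducible to `A`. -/
def Computes (A : Set ℕ) (f : ℕ → ℕ) : Prop :=
  TuringReducible (fun n => Part.some (f n)) (fun n => Part.some (chi A n))

/-- The class of oracles computing a function `y` below `h` that is eventually different from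
every computable function. -/
def BNe (h : ℕ → ℕ) : Set (Set ℕ) :=
  {A | ∃ y : ℕ → ℕ, Computes A y ∧ (∀ n, y n < h n) ∧
    ∀ x : ℕ → ℕ, Computable x → ∀ᶠ n in atTop, x n ≠ y n}

theorem computes_iff (A : Set ℕ) (f : ℕ → ℕ) :
    Computes A f ↔ TR {fun n => Part.some (chi A n)} f := by
  unfold Computes TuringReducible TR
  exact RecursiveIn.iff_nat

theorem computable_fact : Computable Nat.factorial := by
  have h1 : Primrec₂ (fun (n IH : ℕ) => (n + 1) * IH) :=
    Primrec.nat_mul.comp (Primrec.succ.comp Primrec.fst) Primrec.snd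
  refine ((Primrec.nat_rec₁ 1 h1).of_eq (fun n => ?_)).to_comp
  induction n with
  | zero => rfl
  | succ n ih => rw [Nat.factorial_succ, ← ih]

theorem two_pow_le_fact (n : ℕ) (hn : 4 ≤ n) : 2 ^ n ≤ n.factorial := by
  induction n, hn using Nat.le_induction with
  | base => decide
  | succ n hn ih =>
    rw [pow_succ, Nat.factorial_succ, mul_comm]
    exact Nat.mul_le_mul (by omega) ih

theorem sub_fact : BNe (fun n => 2 ^ (2 ^ n)) ⊆ BNe (fun n => 2 ^ n.factorial) := by
  rintro A ⟨y, hy, hlt, hav⟩
  refine ⟨fun n => if 4 ≤ n then y n else 0, ?_, ?_, ?_⟩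
  · rw [computes_iff] at hy ⊢
    have hF : Primrec₂ (fun (n m : ℕ) => if 4 ≤ n then m else 0) :=
      Primrec.ite (Primrec.nat_le.comp (Primrec.const 4) Primrec.fst) Primrec.snd
        (Primrec.const 0)
    exact (TR.comp₂ hF.to_comp TR.id hy).of_eq (fun n => rfl)
  · intro n
    simp only
    split_ifs with h
    · exact lt_of_lt_of_le (hlt n) (Nat.pow_le_pow_right (by norm_num) (two_pow_le_fact n h))
    · positivity
  · intro x hx
    filter_upwards [hav x hx, eventually_ge_atTop 4] with n hn h4
    rw [if_pos h4]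
    exact hn

theorem tr_lev (O : Set (ℕ →. ℕ)) : TR O lev := by
  have h0 : ∀ k, ∃ i, (fun k i => if k < parK (i + 1) then 0 else 1) k i = 0 := by
    intro k
    obtain ⟨i, hi⟩ := exists_lev k
    exact ⟨i, by simp [hi]⟩
  have h1 : TR O (fun p : ℕ => (fun k i => if k < parK (i + 1) then 0 else 1)
      p.unpair.1 p.unpair.2) := by
    apply TR.of_computable
    have h2 : Primrec (fun p : ℕ => if p.unpair.1 < parK (p.unpair.2 + 1) then 0 else 1) :=
      Primrec.ite (Primrec.nat_lt.comp (Primrec.fst.comp Primrec.unpair)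
        (primrec_parK.comp (Primrec.succ.comp (Primrec.snd.comp Primrec.unpair))))
        (Primrec.const 0) (Primrec.const 1)
    exact h2.to_comp
  refine (TR.find h1 h0).of_eq (fun k => ?_)
  rw [Nat.find_eq_iff]
  have h3 : k < parK (lev k + 1) := Nat.find_spec (exists_lev k)
  refine ⟨by simp [h3], fun i hi => ?_⟩
  have h4 : ¬ k < parK (i + 1) := Nat.find_min (exists_lev k) hi
  simp [h4]

/-- **Theorem.** `B(≠*, 2^(2^n))` is a proper subclass of `B(≠*, 2^(n!))`. -/
theorem result : BNe (fun n => 2 ^ (2 ^ n)) ⊂ BNe (fun n => 2 ^ n.factorial) := by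
  refine ⟨sub_fact, fun hsub => ?_⟩
  obtain ⟨G, hG1, hG2⟩ := main
  set A : Set ℕ := {n | G n.unpair.1 = n.unpair.2} with hA
  have hchi : ∀ n, chi A n = if G n.unpair.1 = n.unpair.2 then 1 else 0 := by
    intro n
    have h : n ∈ A ↔ G n.unpair.1 = n.unpair.2 := Iff.rfl
    unfold chi
    by_cases h2 : G n.unpair.1 = n.unpair.2
    · rw [if_pos (h.2 h2), if_pos h2]
    · rw [if_neg (fun h3 => h2 (h.1 h3)), if_neg h2]
  have hmem : A ∈ BNe (fun n => 2 ^ n.factorial) := by
    refine ⟨fun k => G (lev k) % 2 ^ k.factorial, ?_, fun k => Nat.mod_lt _ (by positivity), ?_⟩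
    · rw [computes_iff]
      have hex : ∀ j, ∃ t, (fun j t => 1 - chi A (Nat.pair j t)) j t = 0 := by
        intro j
        exact ⟨G j, by simp [hchi]⟩
      have h1 : TR {fun n => Part.some (chi A n)}
          (fun p : ℕ => (fun j t => 1 - chi A (Nat.pair j t)) p.unpair.1 p.unpair.2) := by
        have h2 : TR {fun n => Part.some (chi A n)} (chi A) := by
          unfold TR
          exact Nat.RecursiveIn.oracle _ rfl
        have h3 : Computable₂ (fun (_ m : ℕ) => 1 - m) :=
          (Primrec.nat_sub.comp (Primrec.const 1) Primrec.snd).to_comp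
        exact (TR.comp₂ h3 TR.id h2).of_eq (fun p => by simp)
      have hGTR : TR {fun n => Part.some (chi A n)} G := by
        refine (TR.find h1 hex).of_eq (fun j => ?_)
        rw [Nat.find_eq_iff]
        refine ⟨by simp [hchi], fun t ht => ?_⟩
        have : G j ≠ t := by omega
        simp [hchi, this]
      have h4 : Computable₂ (fun (k g : ℕ) => g % 2 ^ k.factorial) :=
        Computable₂.comp Primrec.nat_mod.to_comp Computable.snd
          (Computable₂.comp primrec_pow.to_comp (Computable.const 2)
            (computable_fact.comp Computable.fst))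
      exact (TR.comp₂ h4 TR.id (hGTR.comp (tr_lev _))).of_eq (fun k => rfl)
    · intro x hx
      filter_upwards [hG1 x hx] with k hk
      exact fun h => hk h.symm
  obtain ⟨z, hz, hzlt, hzav⟩ := hsub hmem
  rw [computes_iff] at hz
  have h1 : Nat.RecursiveIn {fun n => Part.some (G n)} (fun n => Part.some (z n)) := by
    refine Nat.RecursiveIn.subst hz ?_
    intro g hg
    have hg' : g = fun n => Part.some (chi A n) := hg
    subst hg'
    have h2 : TR {fun n => Part.some (G n)} G := by
      unfold TR
      exact Nat.RecursiveIn.oracle _ rfl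
    have h3 : Primrec₂ (fun (n g : ℕ) => if g = n.unpair.2 then 1 else 0) :=
      Primrec.ite (Primrec.eq.comp Primrec.snd (Primrec.snd.comp (Primrec.unpair.comp Primrec.fst)))
        (Primrec.const 1) (Primrec.const 0)
    have h4 : TR {fun n => Part.some (G n)} (fun n => G n.unpair.1) :=
      h2.comp (TR.of_computable (Computable.fst.comp Computable.unpair))
    exact (TR.comp₂ h3.to_comp TR.id h4).of_eq (fun n => (hchi n).symm)
  obtain ⟨φ, hφ, hgives⟩ := use_principle G h1
  obtain ⟨x, hx, hfreq⟩ := hG2 φ z hφ hzlt hgives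
  obtain ⟨n, hn1, hn2⟩ := (hfreq.and_eventually (hzav x hx)).exists
  exact hn2 hn1

end Pool.Agent.Results.MP_738f0f_lc.ProperFactorial
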